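import Pool.Agent.Work.MP_9628a2_al.Hedge.Main

namespace Pool.Agent.Results.MP_9628a2_al.SplitBasis

open Pool.Agent.QIBH

theorem result (w : FreeGroup Bool) (hw : w ≠ 1) (K : (G : Type) → [Group G] → Prop)
    (hfin : ∀ (G : Type) [Group G] [Finite G], K G)
    (hK : ∀ (G : Type) [Group G], K G → ∀ q : QI, (∀ (Q : Type) [Group Q],
      (∃ d, Poly d Q) ∨ (∀ x : Bool → Q, FreeGroup.lift x w = 1) → Sat Q q) → Sat G q) :
    ∃ (σ : ℕ → QI) (H : ℕ → Type) (_ : ∀ j, Group (H j)),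
      (∀ q, (∀ (G : Type) [Group G], K G → Sat G q) ↔
        ∀ (G : Type) [Group G], (∀ j, Sat G (σ j)) → Sat G q) ∧
      (∀ j, Group.FG (H j)) ∧ (∀ i j, Sat (H j) (σ i) ↔ i ≠ j) ∧
      ∀ (G : Type) [Group G], {i | Sat G (σ i)}.Infinite → ∀ q,
        (∀ (Q : Type) [Group Q], K Q → Sat Q q) →
        (∀ j (φ : H j →* G), Function.Injective φ → Sat (H j) q) → Sat G q := by
  choose τ hτ using QIB.exists_qi_of_hn
  replace hτ : ∀ h (G : Type) [Group G], Sat G (τ h) ↔ QIB.HMod G h := hτ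
  choose ν hν using QIB.exists_hn_of_qi
  replace hν : ∀ (q : QI) (G : Type) [Group G], QIB.HMod G (ν q) ↔ Sat G q := hν
  obtain ⟨σ, H, _, h1, h2, h3, h4⟩ := split w hw K hfin fun G _ hG h hh => (hτ h G).1
    (hK G hG _ fun Q _ hQ => (hτ h Q).2 (hh Q (hQ.imp_right fun e _ _ => e _)))
  exact ⟨fun j => τ (σ j), H, _, fun q => by simpa only [hτ, hν] using h1 (ν q), h2,
    by simpa only [hτ] using h3, fun G _ hG q => by
      simpa only [hν] using h4 G (by simpa only [hτ] using hG) (ν q)⟩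

end Pool.Agent.Results.MP_9628a2_al.SplitBasis
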